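import Pool.Agent.MP_d84343_gt.OrbitDim
import Pool.Agent.MP_d84343_gt.Ricci

open scoped Manifold ContDiff Bundle
open Bundle Metric Module VectorField

namespace Pool.Agent.Results.MP_d84343_gt.HighCohomogeneity

open Pool.Agent.MP_d84343_gt

theorem isSingular_iff {m : ℕ} (hm : 1 ≤ m) (x : Mq m) :
    IsSingular (EuclideanSpace ℝ (Fin 3)) (EuclideanSpace ℝ (Fin (4 * m + 2))) Gq x ↔ Sing x := by
  constructor
  · rintro ⟨p, hp, hlt⟩
    by_contra hx
    rw [orbitDim_not_sing hx, orbitDim_not_sing ((isPrincipal_iff hm p).mp hp)] at hlt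
    exact lt_irrefl _ hlt
  · intro hx
    obtain ⟨p, hp⟩ := exists_not_sing hm
    refine ⟨p, (isPrincipal_iff hm p).mpr hp, ?_⟩
    rw [orbitDim_not_sing hp]
    exact orbitDim_sing hx

theorem sing_set {m : ℕ} :
    ∃ x₀ : Mq m, {O : Set (Mq m) | ∃ x : Mq m, Sing x ∧ O = MulAction.orbit Gq x}
      = {MulAction.orbit Gq x₀} := by
  obtain ⟨x₀, hx₀⟩ := exists_sing m
  refine ⟨x₀, ?_⟩
  ext O
  simp only [Set.mem_ofPred_eq, Set.mem_singleton_iff]
  constructor
  · rintro ⟨x, hx, rfl⟩
    obtain ⟨g, hg⟩ := sing_orbit hx₀ hx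
    rw [← hg]
    exact MulAction.orbit_eq_iff.mpr (MulAction.mem_orbit x₀ g)
  · rintro rfl
    exact ⟨x₀, hx₀, rfl⟩

theorem singleSingular (m : ℕ) (hm : 1 ≤ m) :
    SingleSingularOrbit (4 * m - 1) (EuclideanSpace ℝ (Fin 3)) (EuclideanSpace ℝ (Fin (4 * m + 2)))
      Gq (Mq m) where
  finW := inferInstance
  finV := inferInstance
  lieGroup := lieGq
  compactGroup := inferInstance
  t2Group := inferInstance
  compact := by
    have : ProperSpace (S m) := FiniteDimensional.proper ℝ (S m)
    exact inferInstance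
  t2 := inferInstance
  connected := by
    apply isConnected_iff_connectedSpace.mp
    apply isConnected_sphere
    · have h : finrank ℝ (S m) = (4 * m + 2) + 1 := Fact.out
      rw [← finrank_eq_rank, h]
      exact_mod_cast (by omega : 1 < 4 * m + 2 + 1)
    · exact zero_le_one
  smooth := contMDiff_act m
  exists_principal := by
    obtain ⟨x, hx⟩ := exists_not_sing hm
    exact ⟨x, (isPrincipal_iff hm x).mpr hx⟩
  cohomogeneity x hx := by
    rw [orbitDim_not_sing ((isPrincipal_iff hm x).mp hx), finrank_euclideanSpace_fin]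
    omega
  single_singular := by
    obtain ⟨x₀, hx₀⟩ := sing_set (m := m)
    simp only [isSingular_iff hm]
    rw [hx₀]
    exact Set.encard_singleton _
  finite_nonprincipal := by
    obtain ⟨x₀, hx₀⟩ := sing_set (m := m)
    simp only [isPrincipal_iff hm, not_not]
    rw [hx₀]
    exact Set.finite_singleton _

/-- For every `m ≥ 2` there is a `G`-manifold with a single singular orbit, of cohomogeneity
`4 m - 1 > 3`, which admits a `G`-invariant Riemannian metric of positive Ricci curvature. -/
theorem result (m : ℕ) (hm : 2 ≤ m) :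
    3 < 4 * m - 1 ∧
    ∃ (W V : Type) (_ : NormedAddCommGroup W) (_ : NormedSpace ℝ W)
      (_ : NormedAddCommGroup V) (_ : NormedSpace ℝ V)
      (G : Type) (_ : Group G) (_ : TopologicalSpace G) (_ : ChartedSpace W G)
      (M : Type) (_ : TopologicalSpace M) (_ : ChartedSpace V M) (_ : IsManifold 𝓘(ℝ, V) ∞ M)
      (_ : MulAction G M),
      SingleSingularOrbit (4 * m - 1) W V G M ∧
      ∃ g : RiemMetric V M, IsInvariant G g ∧ HasPositiveRicci g := by
  refine ⟨by omega, EuclideanSpace ℝ (Fin 3), EuclideanSpace ℝ (Fin (4 * m + 2)),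
    inferInstance, inferInstance, inferInstance, inferInstance, Gq, inferInstance,
    inferInstance, inferInstance, Mq m,
    inferInstance, inferInstance, inferInstance, inferInstance, singleSingular m (by omega),
    roundMetric (S m) (4 * m + 2), isInvariant_round m, hasPositiveRicci_round (by omega)⟩

end Pool.Agent.Results.MP_d84343_gt.HighCohomogeneity
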